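import Mathlib

set_option autoImplicit false

/-!
A spectrahedral cone in `ℝ⁵` with a face which is not projectionally exposed:
`K = {(x₀,x₁,x₂,s,t) : x₀ + t ≥ 0, x₂ - x₀ ≥ 0, x₁ ≥ 0, x₂ - x₁ ≥ 0, (x₂ t; t s) ⪰ 0}`, and the face
`s = 0`, which is the cone over a square.
-/

namespace Pool.Agent.Results.MP_55559b_an.NotProjectionallyExposed

open Matrix

/-- `C` is a closed convex cone of `ℝⁿ` (containing `0`). -/
def IsClosedConvexCone {n : ℕ} (C : Set (Fin n → ℝ)) : Prop :=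
  IsClosed C ∧ (0 : Fin n → ℝ) ∈ C ∧ (∀ x ∈ C, ∀ y ∈ C, x + y ∈ C) ∧
    ∀ c : ℝ, 0 ≤ c → ∀ x ∈ C, c • x ∈ C

/-- `F` is a face of the cone `K`. -/
def IsFace {n : ℕ} (F K : Set (Fin n → ℝ)) : Prop :=
  IsClosedConvexCone F ∧ F ⊆ K ∧ ∀ x ∈ K, ∀ y ∈ K, x + y ∈ F → x ∈ F ∧ y ∈ F

/-- The subset `F` of `K` is projectionally exposed: `F = P K` for a linear projection `P`. -/
def IsProjectionallyExposed {n : ℕ} (F K : Set (Fin n → ℝ)) : Prop :=
  ∃ P : (Fin n → ℝ) →ₗ[ℝ] (Fin n → ℝ), P ∘ₗ P = P ∧ P '' K = F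

/-- The spectrahedral cone `{x : ∑ x_i A_i ⪰ 0}`. -/
def specCone {n m : ℕ} (A : Fin n → Matrix (Fin m) (Fin m) ℝ) : Set (Fin n → ℝ) :=
  {x | (∑ i, x i • A i).PosSemidef}

/-- The five symmetric matrices. -/
def A : Fin 5 → Matrix (Fin 6) (Fin 6) ℝ := ![
  !![1, 0, 0, 0, 0, 0; 0, -1, 0, 0, 0, 0; 0, 0, 0, 0, 0, 0; 0, 0, 0, 0, 0, 0; 0, 0, 0, 0, 0, 0;
     0, 0, 0, 0, 0, 0],
  !![0, 0, 0, 0, 0, 0; 0, 0, 0, 0, 0, 0; 0, 0, 1, 0, 0, 0; 0, 0, 0, -1, 0, 0; 0, 0, 0, 0, 0, 0;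
     0, 0, 0, 0, 0, 0],
  !![0, 0, 0, 0, 0, 0; 0, 1, 0, 0, 0, 0; 0, 0, 0, 0, 0, 0; 0, 0, 0, 1, 0, 0; 0, 0, 0, 0, 1, 0;
     0, 0, 0, 0, 0, 0],
  !![0, 0, 0, 0, 0, 0; 0, 0, 0, 0, 0, 0; 0, 0, 0, 0, 0, 0; 0, 0, 0, 0, 0, 0; 0, 0, 0, 0, 0, 0;
     0, 0, 0, 0, 0, 1],
  !![1, 0, 0, 0, 0, 0; 0, 0, 0, 0, 0, 0; 0, 0, 0, 0, 0, 0; 0, 0, 0, 0, 0, 0; 0, 0, 0, 0, 0, 1;
     0, 0, 0, 0, 1, 0]]

lemma sum_eq (x : Fin 5 → ℝ) : ∑ i, x i • A i =
    !![x 0 + x 4, 0, 0, 0, 0, 0; 0, x 2 - x 0, 0, 0, 0, 0; 0, 0, x 1, 0, 0, 0;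
       0, 0, 0, x 2 - x 1, 0, 0; 0, 0, 0, 0, x 2, x 4; 0, 0, 0, 0, x 4, x 3] := by
  ext i j
  simp only [Fin.sum_univ_five, A]
  fin_cases i <;> fin_cases j <;> simp <;> ring

/-- The quadratic form. -/
lemma quad (x : Fin 5 → ℝ) (v : Fin 6 → ℝ) :
    star v ⬝ᵥ (∑ i, x i • A i) *ᵥ v =
      (x 0 + x 4) * v 0 ^ 2 + (x 2 - x 0) * v 1 ^ 2 + x 1 * v 2 ^ 2 + (x 2 - x 1) * v 3 ^ 2 +
        (x 2 * v 4 ^ 2 + 2 * x 4 * v 4 * v 5 + x 3 * v 5 ^ 2) := by
  rw [sum_eq]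
  simp [Matrix.mulVec, dotProduct, Fin.sum_univ_six]
  ring

lemma mem_iff (x : Fin 5 → ℝ) : x ∈ specCone A ↔
    0 ≤ x 0 + x 4 ∧ 0 ≤ x 2 - x 0 ∧ 0 ≤ x 1 ∧ 0 ≤ x 2 - x 1 ∧ 0 ≤ x 2 ∧ 0 ≤ x 3 ∧
      x 4 ^ 2 ≤ x 2 * x 3 := by
  constructor
  · intro h
    have hq : ∀ v : Fin 6 → ℝ, 0 ≤ (x 0 + x 4) * v 0 ^ 2 + (x 2 - x 0) * v 1 ^ 2 + x 1 * v 2 ^ 2 +
        (x 2 - x 1) * v 3 ^ 2 + (x 2 * v 4 ^ 2 + 2 * x 4 * v 4 * v 5 + x 3 * v 5 ^ 2) := by
      intro v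
      rw [← quad]
      exact h.dotProduct_mulVec_nonneg v
    have h0 := hq ![1, 0, 0, 0, 0, 0]
    have h1 := hq ![0, 1, 0, 0, 0, 0]
    have h2 := hq ![0, 0, 1, 0, 0, 0]
    have h3 := hq ![0, 0, 0, 1, 0, 0]
    have h4 := hq ![0, 0, 0, 0, 1, 0]
    have h5 := hq ![0, 0, 0, 0, 0, 1]
    simp at h0 h1 h2 h3 h4 h5
    refine ⟨h0, sub_nonneg.2 h1, h2, sub_nonneg.2 h3, h4, h5, ?_⟩
    -- the determinant
    have h6 := hq ![0, 0, 0, 0, x 3, -x 4]
    have h7 := hq ![0, 0, 0, 0, -x 4, x 2]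
    have h8 := hq ![0, 0, 0, 0, x 4, -1]
    simp at h6 h7 h8
    rcases h5.eq_or_lt with h5' | h5'
    · -- here the last entry vanishes
      rw [← h5'] at h8 ⊢
      rcases eq_or_ne (x 4) 0 with h9 | h9
      · rw [h9]; simp
      · exfalso
        have h10 := hq ![0, 0, 0, 0, 1, -(x 2 + 1) / (2 * x 4)]
        simp at h10
        rw [← h5'] at h10
        have e2 : 2 * x 4 * ((-1 + -x 2) / (2 * x 4)) = -(x 2 + 1) := by field_simp; ring
        linarith [e2, h10]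
    · nlinarith
  · rintro ⟨h0, h1, h2, h3, h4, h5, h6⟩
    refine Matrix.PosSemidef.of_dotProduct_mulVec_nonneg ?_ fun v => ?_
    · rw [sum_eq]
      ext i j
      fin_cases i <;> fin_cases j <;> simp
    · rw [quad]
      have e : 0 ≤ x 2 * v 4 ^ 2 + 2 * x 4 * v 4 * v 5 + x 3 * v 5 ^ 2 := by
        rcases h4.eq_or_lt with h4' | h4'
        · rw [← h4'] at h6 ⊢
          have h7 : x 4 = 0 := by nlinarith
          rw [h7]
          have := mul_nonneg h5 (sq_nonneg (v 5))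
          linarith
        · have h8 : 0 ≤ x 2 * (x 2 * v 4 ^ 2 + 2 * x 4 * v 4 * v 5 + x 3 * v 5 ^ 2) := by
            have : x 2 * (x 2 * v 4 ^ 2 + 2 * x 4 * v 4 * v 5 + x 3 * v 5 ^ 2) =
                (x 2 * v 4 + x 4 * v 5) ^ 2 + (x 2 * x 3 - x 4 ^ 2) * v 5 ^ 2 := by ring
            rw [this]
            have := mul_nonneg (sub_nonneg.2 h6) (sq_nonneg (v 5))
            positivity
          exact nonneg_of_mul_nonneg_right h8 h4'
      have := mul_nonneg h0 (sq_nonneg (v 0))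
      have := mul_nonneg h1 (sq_nonneg (v 1))
      have := mul_nonneg h2 (sq_nonneg (v 2))
      have := mul_nonneg h3 (sq_nonneg (v 3))
      linarith

/-- The face `s = 0`. -/
def F : Set (Fin 5 → ℝ) :=
  {x | 0 ≤ x 0 ∧ 0 ≤ x 2 - x 0 ∧ 0 ≤ x 1 ∧ 0 ≤ x 2 - x 1 ∧ x 3 = 0 ∧ x 4 = 0}

lemma mem_F_iff (x : Fin 5 → ℝ) (hx : x ∈ specCone A) : x ∈ F ↔ x 3 = 0 := by
  rw [mem_iff] at hx
  obtain ⟨h0, h1, h2, h3, h4, h5, h6⟩ := hx
  constructor
  · intro h; exact h.2.2.2.2.1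
  · intro h
    have h7 : x 4 = 0 := by rw [h] at h6; nlinarith
    refine ⟨by rw [h7] at h0; linarith, h1, h2, h3, h, h7⟩

lemma F_subset : F ⊆ specCone A := by
  rintro x ⟨h0, h1, h2, h3, h4, h5⟩
  rw [mem_iff, h4, h5]
  refine ⟨by linarith, h1, h2, h3, by linarith, le_rfl, by simp⟩

lemma F_face : IsFace F (specCone A) := by
  refine ⟨⟨?_, ?_, ?_, ?_⟩, F_subset, ?_⟩
  · have c : ∀ i : Fin 5, Continuous fun x : Fin 5 → ℝ => x i := fun i => continuous_apply i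
    refine (isClosed_le continuous_const (c 0)).inter
      ((isClosed_le continuous_const ((c 2).sub (c 0))).inter
      ((isClosed_le continuous_const (c 1)).inter
      ((isClosed_le continuous_const ((c 2).sub (c 1))).inter
      ((isClosed_eq (c 3) continuous_const).inter (isClosed_eq (c 4) continuous_const)))))
  · simp [F]
  · rintro x ⟨h0, h1, h2, h3, h4, h5⟩ y ⟨k0, k1, k2, k3, k4, k5⟩
    refine ⟨?_, ?_, ?_, ?_, ?_, ?_⟩ <;> simp only [Pi.add_apply] <;> linarith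
  · rintro c hc x ⟨h0, h1, h2, h3, h4, h5⟩
    refine ⟨?_, ?_, ?_, ?_, ?_, ?_⟩ <;> simp only [Pi.smul_apply, smul_eq_mul]
    · positivity
    · rw [← mul_sub]; positivity
    · positivity
    · rw [← mul_sub]; positivity
    · rw [h4, mul_zero]
    · rw [h5, mul_zero]
  · intro x hx y hy hxy
    have h1 := ((mem_iff x).1 hx).2.2.2.2.2.1
    have h2 := ((mem_iff y).1 hy).2.2.2.2.2.1
    have h3 : x 3 + y 3 = 0 := hxy.2.2.2.2.1
    exact ⟨(mem_F_iff x hx).2 (by linarith), (mem_F_iff y hy).2 (by linarith)⟩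

lemma limit_nonneg (a b : ℝ) (h : ∀ R : ℝ, 2 ≤ R → 0 ≤ a + b / R) : 0 ≤ a := by
  by_contra hcon
  push Not at hcon
  have h1 := h (max 2 (2 * |b| / (-a))) (le_max_left _ _)
  set R := max 2 (2 * |b| / (-a)) with hR
  have hR2 : 2 ≤ R := le_max_left _ _
  have hR0 : 0 < R := by linarith
  have h2 : 2 * |b| / (-a) ≤ R := le_max_right _ _
  rw [div_le_iff₀ (by linarith)] at h2
  have h3 : b / R ≤ -a / 2 := by
    rw [div_le_iff₀ hR0]
    have := le_abs_self b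
    linarith
  linarith

lemma not_exposed : ¬ IsProjectionallyExposed F (specCone A) := by
  rintro ⟨P, hPP, hPK⟩
  have hfix : ∀ v ∈ F, P v = v := by
    intro v hv
    rw [← hPK] at hv
    obtain ⟨u, _, rfl⟩ := hv
    exact congrArg (fun L : (Fin 5 → ℝ) →ₗ[ℝ] (Fin 5 → ℝ) => L u) hPP
  have hmap : ∀ v ∈ specCone A, P v ∈ F := fun v hv => by
    rw [← hPK]; exact ⟨v, hv, rfl⟩
  -- the images of the unit vectors
  have f2 : P ![0, 0, 1, 0, 0] = ![0, 0, 1, 0, 0] := hfix _ (by simp [F])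
  have f0 : P ![1, 0, 0, 0, 0] = ![1, 0, 0, 0, 0] := by
    have h := hfix ![1, 0, 1, 0, 0] (by simp [F])
    have e : (![1, 0, 1, 0, 0] : Fin 5 → ℝ) = ![1, 0, 0, 0, 0] + ![0, 0, 1, 0, 0] := by
      ext i; fin_cases i <;> simp
    rw [e, map_add, f2] at h
    exact add_right_cancel h
  have f1 : P ![0, 1, 0, 0, 0] = ![0, 1, 0, 0, 0] := by
    have h := hfix ![0, 1, 1, 0, 0] (by simp [F])
    have e : (![0, 1, 1, 0, 0] : Fin 5 → ℝ) = ![0, 1, 0, 0, 0] + ![0, 0, 1, 0, 0] := by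
      ext i; fin_cases i <;> simp
    rw [e, map_add, f2] at h
    exact add_right_cancel h
  set c := P ![0, 0, 0, 1, 0] with hc
  set d := P ![0, 0, 0, 0, 1] with hd
  have hP : ∀ x y z s t : ℝ, P ![x, y, z, s, t] =
      x • ![1, 0, 0, 0, 0] + y • ![0, 1, 0, 0, 0] + z • ![0, 0, 1, 0, 0] + s • c + t • d := by
    intro x y z s t
    have e : (![x, y, z, s, t] : Fin 5 → ℝ) = x • ![1, 0, 0, 0, 0] + y • ![0, 1, 0, 0, 0] +
        z • ![0, 0, 1, 0, 0] + s • ![0, 0, 0, 1, 0] + t • ![0, 0, 0, 0, 1] := by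
      ext i; fin_cases i <;> simp
    rw [e, map_add, map_add, map_add, map_add, map_smul, map_smul, map_smul, map_smul, map_smul,
      f0, f1, f2, ← hc, ← hd]
  have p0 : ∀ x y z s t : ℝ, P ![x, y, z, s, t] 0 = x + s * c 0 + t * d 0 := by
    intro x y z s t
    rw [hP]
    simp only [Pi.add_apply, Pi.smul_apply, smul_eq_mul]
    simp
  have p1 : ∀ x y z s t : ℝ, P ![x, y, z, s, t] 1 = y + s * c 1 + t * d 1 := by
    intro x y z s t
    rw [hP]
    simp only [Pi.add_apply, Pi.smul_apply, smul_eq_mul]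
    simp
  have p2 : ∀ x y z s t : ℝ, P ![x, y, z, s, t] 2 = z + s * c 2 + t * d 2 := by
    intro x y z s t
    rw [hP]
    simp only [Pi.add_apply, Pi.smul_apply, smul_eq_mul]
    simp
  have mem : ∀ x y R t : ℝ, 2 ≤ R → 0 ≤ x + t → x ≤ R → 0 ≤ y → y ≤ R → t ^ 2 = 1 →
      P ![x, y, R, R⁻¹, t] ∈ F := by
    intro x y R t hR h1 h2 h3 h4 h5
    have hR0 : 0 < R := by linarith
    refine hmap _ ((mem_iff _).2 ⟨h1, sub_nonneg.2 h2, h3, sub_nonneg.2 h4, hR0.le,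
      (inv_pos.2 hR0).le, ?_⟩)
    change t ^ 2 ≤ R * R⁻¹
    rw [mul_inv_cancel₀ hR0.ne', h5]
  -- the four facets
  have g0 : ∀ R : ℝ, 2 ≤ R → 0 ≤ (d 0 - 1) + c 0 / R := by
    intro R hR
    have h := (mem (-1) (R / 2) R 1 hR (by linarith) (by linarith) (by linarith) (by linarith)
      (by norm_num)).1
    rw [p0] at h
    have e : c 0 / R = R⁻¹ * c 0 := by field_simp
    rw [e]; linarith
  have g2 : ∀ R : ℝ, 2 ≤ R → 0 ≤ (d 2 - d 0) + (c 2 - c 0) / R := by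
    intro R hR
    have h := (mem R (R / 2) R 1 hR (by linarith) (by linarith) (by linarith) (by linarith)
      (by norm_num)).2.1
    rw [p0, p2] at h
    have e : (c 2 - c 0) / R = R⁻¹ * c 2 - R⁻¹ * c 0 := by field_simp
    rw [e]; linarith
  have g1' : ∀ R : ℝ, 2 ≤ R → 0 ≤ (- d 1) + c 1 / R := by
    intro R hR
    have h := (mem (R / 2) 0 R (-1) hR (by linarith) (by linarith) (by linarith) (by linarith)
      (by norm_num)).2.2.1
    rw [p1] at h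
    have e : c 1 / R = R⁻¹ * c 1 := by field_simp
    rw [e]; linarith
  have g3' : ∀ R : ℝ, 2 ≤ R → 0 ≤ (d 1 - d 2) + (c 2 - c 1) / R := by
    intro R hR
    have h := (mem (R / 2) R R (-1) hR (by linarith) (by linarith) (by linarith) (by linarith)
      (by norm_num)).2.2.2.1
    rw [p1, p2] at h
    have e : (c 2 - c 1) / R = R⁻¹ * c 2 - R⁻¹ * c 1 := by field_simp
    rw [e]; linarith
  have l0 := limit_nonneg _ _ g0
  have l2 := limit_nonneg _ _ g2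
  have l1' := limit_nonneg _ _ g1'
  have l3' := limit_nonneg _ _ g3'
  linarith

/-- There are five real symmetric `6 × 6` matrices, linearly independent, whose spectrahedral cone
in `ℝ⁵` has a face that is not projectionally exposed. -/
theorem result :
    ∃ A : Fin 5 → Matrix (Fin 6) (Fin 6) ℝ,
      (∀ i, (A i).IsSymm) ∧ LinearIndependent ℝ A ∧ IsClosedConvexCone (specCone A) ∧
      ∃ F : Set (Fin 5 → ℝ), IsFace F (specCone A) ∧ ¬ IsProjectionallyExposed F (specCone A) := by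
  refine ⟨A, fun i => ?_, ?_, ⟨?_, ?_, ?_, ?_⟩, F, F_face, not_exposed⟩
  · ext j k
    fin_cases i <;> fin_cases j <;> fin_cases k <;> simp [A]
  · rw [Fintype.linearIndependent_iff]
    intro g hg
    rw [sum_eq] at hg
    have h0 := congrFun (congrFun hg 0) 0
    have h1 := congrFun (congrFun hg 1) 1
    have h2 := congrFun (congrFun hg 2) 2
    have h3 := congrFun (congrFun hg 4) 5
    have h4 := congrFun (congrFun hg 5) 5
    have h5 := congrFun (congrFun hg 4) 4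
    simp at h0 h1 h2 h3 h4 h5
    intro i
    fin_cases i
    · simpa [h3] using h0
    · exact h2
    · exact h5
    · exact h4
    · exact h3
  · have c : ∀ i : Fin 5, Continuous fun x : Fin 5 → ℝ => x i := fun i => continuous_apply i
    have : specCone A = {x | 0 ≤ x 0 + x 4 ∧ 0 ≤ x 2 - x 0 ∧ 0 ≤ x 1 ∧ 0 ≤ x 2 - x 1 ∧ 0 ≤ x 2 ∧
        0 ≤ x 3 ∧ x 4 ^ 2 ≤ x 2 * x 3} := Set.ext mem_iff
    rw [this]
    refine (isClosed_le continuous_const ((c 0).add (c 4))).inter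
      ((isClosed_le continuous_const ((c 2).sub (c 0))).inter
      ((isClosed_le continuous_const (c 1)).inter
      ((isClosed_le continuous_const ((c 2).sub (c 1))).inter
      ((isClosed_le continuous_const (c 2)).inter
      ((isClosed_le continuous_const (c 3)).inter
      (isClosed_le ((c 4).pow 2) ((c 2).mul (c 3))))))))
  · rw [mem_iff]; simp
  · intro x hx y hy
    change (∑ i, (x + y) i • A i).PosSemidef
    have : ∑ i, (x + y) i • A i = (∑ i, x i • A i) + ∑ i, y i • A i := by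
      rw [← Finset.sum_add_distrib]
      exact Finset.sum_congr rfl fun i _ => by rw [Pi.add_apply, add_smul]
    rw [this]
    exact Matrix.PosSemidef.add hx hy
  · intro c hc x hx
    change (∑ i, (c • x) i • A i).PosSemidef
    have : ∑ i, (c • x) i • A i = c • ∑ i, x i • A i := by
      rw [Finset.smul_sum]
      exact Finset.sum_congr rfl fun i _ => by rw [Pi.smul_apply, smul_eq_mul, mul_smul]
    rw [this]
    exact Matrix.PosSemidef.smul hx hc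

end Pool.Agent.Results.MP_55559b_an.NotProjectionallyExposed
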